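import Pool.Agent.Work.MP_db9399_lc.Interface
import Pool.Agent.Work.MP_db9399_bg_helper21.SXP

/-! THEOREM LC, block SXP (from TRF of BIG): signless expansion of pattern graphs. A copy of the
block SXP of BIG with the structure `BL`. -/

set_option autoImplicit false

namespace Pool.Agent.Work.MP_db9399_lc.helper21

open Finset Classical
open Pool.Agent.Work.MP_db9399_all (nb)
open Pool.Agent.Work.MP_db9399_px (LWalk hit ee)
open Pool.Agent.Work.MP_db9399_dn (NB IsMat Tot)
open Pool.Agent.Work.MP_db9399_sc (cut Crit Conn Env Fam Rnd Hv)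
open Pool.Agent.Work.MP_db9399_bg
open Pool.Agent.Work.MP_db9399_bg.helper21

universe u

variable {V : Type u} [Fintype V]

theorem diffL_one {g ε0 : ℝ} {G : SimpleGraph V} {d : ℕ} (hG : BL g ε0 G d) (hg : 0 < g)
    (hd : 0 < d) {S T : Finset V} (hST : Disjoint S T) {z : ℝ}
    (h1 : ee G T (univ \ S) ≤ z * d) (hc : S.card ≤ T.card) :
    (T.card : ℝ) ≤ z / g ∧ (S.card : ℝ) ≤ z / g := by
  have hd' : (0 : ℝ) < d := by exact_mod_cast hd
  have hc' : (S.card : ℝ) ≤ T.card := by exact_mod_cast hc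
  have hT0 : (0 : ℝ) ≤ T.card := by positivity
  have h2 := hG.bip S T hST (by nlinarith)
  rw [MP_db9399_bg.helper21.sum_sdiff] at h2
  have h3 : (T.card : ℝ) ≤ z / g := by
    rw [le_div_iff₀ hg]
    have h4 : (g * T.card) * d ≤ z * d := by nlinarith
    have := le_of_mul_le_mul_right h4 hd'
    linarith
  exact ⟨h3, hc'.trans h3⟩

theorem diffL_all {g ε0 : ℝ} {G : SimpleGraph V} {d : ℕ} (hG : BL g ε0 G d) (hg : 0 < g)
    (hd : 0 < d) {Y1 Y2 : Finset V} {z : ℝ}
    (h1 : ee G (Y1 \ Y2) (univ \ (Y2 \ Y1)) ≤ z * d)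
    (h2 : ee G (Y2 \ Y1) (univ \ (Y1 \ Y2)) ≤ z * d) :
    ((Y1 \ Y2).card : ℝ) ≤ z / g ∧ ((Y2 \ Y1).card : ℝ) ≤ z / g := by
  have hdis : Disjoint (Y1 \ Y2) (Y2 \ Y1) :=
    Finset.disjoint_left.mpr (fun v hv hv' => (mem_sdiff.mp hv').2 (mem_sdiff.mp hv).1)
  rcases le_total (Y2 \ Y1).card (Y1 \ Y2).card with h | h
  · exact diffL_one hG hg hd hdis.symm h1 h
  · exact (diffL_one hG hg hd hdis h2 h).symm

/-- TRF gives a contradiction for a minimal counterexample -/
theorem stmt_SXP (hTRF : MP_db9399_bg.Stmt_TRF.{u}) : MP_db9399_lc.Stmt_SXP.{u} := by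
  intro g n B L hg
  have hg1 : 0 < min g 1 := lt_min hg one_pos
  have hB0 : (0 : ℝ) < 1000 * ((B : ℝ) + 1) := by positivity
  obtain ⟨ε1, hε1, hT⟩ := hTRF n L (min g 1 / (1000 * ((B : ℝ) + 1))) (by positivity)
  have hcpos : 0 < min (ε1 / (8 * ((n : ℝ) + 1))) (1 / 100) := lt_min (by positivity) (by norm_num)
  refine ⟨min (ε1 / (8 * ((n : ℝ) + 1))) (1 / 100), hcpos,
    (min_le_right _ _).trans (by norm_num), ?_⟩
  intro M hM
  obtain ⟨σ, c1, ε0, d0, hσ, hc1, hε0, hT⟩ := hT M hM
  have hM0 : (0 : ℝ) < M := by exact_mod_cast hM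
  refine ⟨min σ (1 / (1000 * M)), c1, min ε0 (1 / 1000), max d0 1, lt_min hσ (by positivity), hc1,
    lt_min hε0 (by norm_num), ?_⟩
  intro T β _ _ P R p V _ G d lab A B' hpat hβ hTM hd hG hlab hAB hABc
  set ε := min g 1 / (1000 * ((B : ℝ) + 1)) with hεdef
  set c := min (ε1 / (8 * ((n : ℝ) + 1))) (1 / 100) with hcdef
  set σ' := min σ (1 / (1000 * (M : ℝ))) with hσ'
  set ε0' := min ε0 (1 / 1000) with hε0'
  set e := 1 / (1000 * ((B : ℝ) + 1)) with hedef
  have he0 : 0 < e := by positivity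
  have hεe : ε ≤ e := by
    rw [hεdef, hedef]
    exact div_le_div_of_nonneg_right (min_le_right _ _) hB0.le
  have hεpos : 0 < ε := by positivity
  have hεg : ε ≤ g * e := by
    rw [hεdef, hedef, mul_one_div]
    exact div_le_div_of_nonneg_right (min_le_left _ _) hB0.le
  have hd1 : 1 ≤ d := (le_max_right _ _).trans hd
  have hd0 : d0 ≤ d := (le_max_left _ _).trans hd
  have hdpos : (0 : ℝ) < d := by exact_mod_cast hd1
  have hdis := hpat.dis
  have hs := hpat.sym
  have hc100 : c ≤ 1 / 100 := min_le_right _ _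
  have hn0 : (1 : ℝ) ≤ n := by exact_mod_cast hpat.n0
  have hp0 := hpat.p0
  have hq : 0 < (n : ℝ) * p * d := by positivity
  have hTpos : 0 < Fintype.card T := by rw [hTM]; exact hM
  -- strong induction
  suffices H : ∀ N : ℕ, ∀ A B' : Finset V, A.card + B'.card = N → Disjoint A B' →
      A ∪ B' ⊆ cl lab (univ.biUnion P) →
      c * (n * p * d) * ((A.card : ℝ) + B'.card) ≤ e2 (pg G lab P R hs) A B' by
    have hcl : ∀ v ∈ A ∪ B', ∃ b, lab v ∈ P b := by
      intro v hv
      have := hABc hv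
      rw [mem_cl, mem_biUnion] at this
      obtain ⟨b, _, hb⟩ := this
      exact ⟨b, hb⟩
    rw [enP_eq hs hdis (fun v hv => hcl v (mem_union_left _ hv))
      (fun v hv => hcl v (mem_union_right _ hv))]
    exact H _ A B' rfl hAB hABc
  intro N
  clear hAB hABc A B'
  induction N using Nat.strong_induction_on with
  | _ N ih =>
  intro A B' hN hAB hABc
  by_contra hcon
  push Not at hcon
  set F := pg G lab P R hs with hF
  set q := (n : ℝ) * p * d with hqdef
  have hcl : ∀ v ∈ A ∪ B', ∃ b, lab v ∈ P b := by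
    intro v hv
    have := hABc hv
    rw [mem_cl, mem_biUnion] at this
    obtain ⟨b, _, hb⟩ := this
    exact ⟨b, hb⟩
  obtain ⟨hconn, hA1, hB1⟩ := min_ctr F (c * q) A B' hAB hcon (by
    intro A' B'' hA' hB'' hlt
    refine ih _ (by omega) A' B'' rfl (Finset.disjoint_of_subset_left hA'
      (Finset.disjoint_of_subset_right hB'' hAB)) ?_
    exact (union_subset_union hA' hB'').trans hABc)
  have hXcard : ((A ∪ B').card : ℝ) = (A.card : ℝ) + B'.card := by
    rw [card_union_of_disjoint hAB]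
    push_cast
    ring
  set X := A ∪ B' with hX
  have he2 : e2 F A B' < c * q * X.card := by rw [hXcard]; exact hcon
  have he20 : 0 ≤ e2 F A B' := add_nonneg (ee_nonneg _ _ _) (ee_nonneg _ _ _)
  have hcq : 0 < c * q := mul_pos hcpos hq
  have hXpos : (0 : ℝ) < X.card := by
    by_contra h
    push Not at h
    have h1 : (c * q) * (X.card : ℝ) ≤ 0 := mul_nonpos_of_nonneg_of_nonpos hcq.le h
    linarith
  have hXne : X.Nonempty := by
    rw [← card_pos]
    exact_mod_cast hXpos
  obtain ⟨v0, hv0⟩ := hXne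
  obtain ⟨b0, hb0⟩ := hcl v0 hv0
  have hpM : 1 / (M : ℝ) ≤ p := by
    rw [← hpat.dn b0]
    unfold den
    rw [hTM]
    apply div_le_div_of_nonneg_right _ hM0.le
    have : 1 ≤ (P b0).card := card_pos.mpr ⟨_, hb0⟩
    exact_mod_cast this
  have hσd : σ' * d ≤ 1 / 1000 * (p * d) := by
    have h1 : σ' ≤ 1 / 1000 * p := by
      calc σ' ≤ 1 / (1000 * (M : ℝ)) := min_le_right _ _
        _ = 1 / 1000 * (1 / (M : ℝ)) := by field_simp
        _ ≤ 1 / 1000 * p := by linarith
    calc σ' * d ≤ (1 / 1000 * p) * d := mul_le_mul_of_nonneg_right h1 hdpos.le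
      _ = 1 / 1000 * (p * d) := by ring
  have hpq : p * d ≤ q := by
    rw [hqdef]
    have h1 : 0 < p * d := by positivity
    calc p * d = 1 * (p * d) := by ring
      _ ≤ n * (p * d) := mul_le_mul_of_nonneg_right hn0 h1.le
      _ = n * p * d := by ring
  have hdegF : ∀ b v, lab v ∈ P b →
      998 / 1000 * q ≤ ((nb G v ∩ cl lab (PN P R b)).card : ℝ) := by
    intro b v _
    have h1 := hlab.deg v (PN P R b)
    rw [hpat.den_PN b] at h1
    have h2 := (abs_le.mp h1).1
    have h3 := hG.low v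
    have h4 : ε0' ≤ 1 / 1000 := min_le_right _ _
    have h5 : (n * p) * ((1 - 1 / 1000) * d) ≤ n * p * ((nb G v).card : ℝ) := by
      apply mul_le_mul_of_nonneg_left _ (by positivity)
      refine le_trans ?_ h3
      apply mul_le_mul_of_nonneg_right _ hdpos.le
      linarith
    have h6 : (n * p) * ((1 - 1 / 1000) * d) = 999 / 1000 * q := by
      rw [hqdef]; ring
    linarith
  have hnbF : ∀ v ∈ X, 998 / 1000 * q ≤ ((nb F v).card : ℝ) := by
    intro v hv
    obtain ⟨b, hb⟩ := hcl v hv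
    rw [hF, nb_pg hdis hb]
    exact hdegF b v hb
  have hcq100 : c * q ≤ 1 / 100 * q := mul_le_mul_of_nonneg_right hc100 hq.le
  have hA2 : ∀ t ∈ A, 49 / 100 * q ≤ ((nb F t ∩ B').card : ℝ) := by
    intro t ht
    have h1 := hA1 t ht
    have h2 := hnbF t (mem_union_left _ ht)
    linarith
  have hB2 : ∀ t ∈ B', 49 / 100 * q ≤ ((nb F t ∩ A).card : ℝ) := by
    intro t ht
    have h1 := hB1 t ht
    have h2 := hnbF t (mem_union_right _ ht)
    linarith
  have hnbX : ∀ v ∈ X, 49 / 100 * q ≤ ((nb F v ∩ X).card : ℝ) := by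
    intro v hv
    rcases mem_union.mp hv with h | h
    · refine (hA2 v h).trans ?_
      exact_mod_cast card_le_card (inter_subset_inter_left subset_union_right)
    · refine (hB2 v h).trans ?_
      exact_mod_cast card_le_card (inter_subset_inter_left subset_union_left)
  have hXq : q ≤ 4 * (X.card : ℝ) := by
    have h1 := hnbX v0 hv0
    have h2 : ((nb F v0 ∩ X).card : ℝ) ≤ X.card := by
      exact_mod_cast card_le_card inter_subset_right
    linarith
  have hfil : (X.filter (fun v => ((nb G v ∩ X).card : ℝ) ≤ q / 4)).card ≤ 30 := by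
    have : X.filter (fun v => ((nb G v ∩ X).card : ℝ) ≤ q / 4) = ∅ := by
      rw [filter_eq_empty_iff]
      intro v hv h
      have h1 := hnbX v hv
      have h2 : ((nb F v ∩ X).card : ℝ) ≤ ((nb G v ∩ X).card : ℝ) := by
        have : nb F v ∩ X ⊆ nb G v ∩ X := by
          intro w hw
          rw [mem_inter, mem_nb] at hw ⊢
          exact ⟨pg_le hw.1, hw.2⟩
        exact_mod_cast card_le_card this
      linarith
    rw [this]
    simp
  have hAe : ee F A (univ \ B') ≤ c * q * X.card := by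
    have : ee F A (univ \ B') ≤ e2 F A B' := by
      unfold e2
      linarith [ee_nonneg F B' (univ \ A)]
    linarith
  have hBe : ee F B' (univ \ A) ≤ c * q * X.card := by
    have : ee F B' (univ \ A) ≤ e2 F A B' := by
      unfold e2
      linarith [ee_nonneg F A (univ \ B')]
    linarith
  have hc8 : 8 * c * n ≤ ε1 := by
    have h1 : c ≤ ε1 / (8 * ((n : ℝ) + 1)) := min_le_left _ _
    rw [le_div_iff₀ (by positivity)] at h1
    linarith
  have hc8' : 8 * c ≤ ε1 := by
    have h1 : (8 * c) * 1 ≤ (8 * c) * n := mul_le_mul_of_nonneg_left hn0 (by positivity)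
    linarith
  have h8z : 8 * (c * q * X.card) ≤ q * (ε1 * X.card) := by
    have : 8 * c * (q * X.card) ≤ ε1 * (q * X.card) :=
      mul_le_mul_of_nonneg_right hc8' (by positivity)
    linarith
  have hdegF' : ∀ b v, lab v ∈ P b →
      9 / 10 * q ≤ ((nb G v ∩ cl lab (PN P R b)).card : ℝ) := by
    intro b v hb
    have := hdegF b v hb
    linarith
  have hsep1 := sep_of hs hdis hq hdegF' hAe hBe h8z
  have hsep2 := sep_of hs hdis hq hdegF' hBe hAe h8z
  have hcross : ∀ (A1 A2 : Finset V), ee F A1 (univ \ A2) ≤ c * q * X.card →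
      ∀ b b', R b b' → ee G (A1 ∩ cl lab (P b)) (cl lab (P b') \ A2) ≤
        ε1 * (p * d) * X.card := by
    intro A1 A2 h b b' hR
    have h1 : ee G (A1 ∩ cl lab (P b)) (cl lab (P b') \ A2) ≤ ee F A1 (univ \ A2) := by
      calc ee G (A1 ∩ cl lab (P b)) (cl lab (P b') \ A2)
          ≤ ee F (A1 ∩ cl lab (P b)) (univ \ A2) := by
            unfold ee
            refine Finset.sum_le_sum (fun v hv => ?_)
            rw [mem_inter, mem_cl] at hv
            have : nb G v ∩ (cl lab (P b') \ A2) ⊆ nb F v ∩ (univ \ A2) := by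
              intro w hw
              rw [mem_inter, mem_sdiff, mem_cl, mem_nb] at hw
              rw [mem_inter, mem_sdiff, mem_nb]
              exact ⟨⟨hw.1, b, b', hR, hv.2, hw.2.1⟩, mem_univ _, hw.2.2⟩
            exact_mod_cast card_le_card this
        _ ≤ ee F A1 (univ \ A2) := ee_mono F inter_subset_left (Subset.refl _)
    refine (h1.trans h).trans ?_
    apply mul_le_mul_of_nonneg_right _ hXpos.le
    rw [hqdef]
    have h2 : c * n ≤ ε1 := by
      have : 0 ≤ c * n := by positivity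
      linarith
    have h3 : (c * n) * (p * d) ≤ ε1 * (p * d) :=
      mul_le_mul_of_nonneg_right h2 (by positivity)
    linarith
  obtain ⟨Y1, Y2, -, hee, -, hnear⟩ := hT P R p G F d lab X A B' hpat hTM hd0 hG.deg
    (fun v => le_trans (by
      apply mul_le_mul_of_nonneg_right _ hdpos.le
      have : ε0' ≤ ε0 := min_le_left _ _
      linarith) (hG.low v)) (hlab.mono (min_le_left _ _) le_rfl) pg_le hconn
    subset_union_left subset_union_right hXq hfil hsep1 hsep2
    (fun b b' hR => ⟨hcross A B' hAe b b' hR, hcross B' A hBe b b' hR⟩)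
  -- the contradiction
  set X0 := (X.card : ℝ) / p with hX0
  have hX0pos : 0 < X0 := by positivity
  have hpX0 : p * X0 = X.card := by
    rw [hX0]; field_simp
  have g1 : ∀ P' : Finset T, ee G ((Y1 \ Y2) ∩ cl lab P') (univ \ (Y2 \ Y1)) ≤
      (2 * e * min g 1 * den P' * X0) * d := by
    intro P'
    have h1 := half G Y1 Y2 (cl lab P')
    have h2 := (hee P' univ).1
    have h3 := (hee univ P').1
    rw [cl_univ, den_univ hTpos] at h2 h3
    rw [inter_univ] at h3
    have h4 : ε = e * min g 1 := by rw [hεdef, hedef]; ring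
    rw [h4] at h2 h3
    linarith
  have g2 : ∀ P' : Finset T, ee G ((Y2 \ Y1) ∩ cl lab P') (univ \ (Y1 \ Y2)) ≤
      (2 * e * min g 1 * den P' * X0) * d := by
    intro P'
    have h1 := half G Y2 Y1 (cl lab P')
    have h2 := (hee P' univ).2
    have h3 := (hee univ P').2
    rw [cl_univ, den_univ hTpos] at h2 h3
    rw [inter_univ] at h3
    have h4 : ε = e * min g 1 := by rw [hεdef, hedef]; ring
    rw [h4] at h2 h3
    linarith
  have g3 : ((Y1 \ Y2).card : ℝ) ≤ 2 * e * X0 ∧ ((Y2 \ Y1).card : ℝ) ≤ 2 * e * X0 := by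
    have h1 := g1 univ
    have h2 := g2 univ
    rw [cl_univ, inter_univ, den_univ hTpos] at h1 h2
    obtain ⟨h3, h4⟩ := diffL_all hG hg (by omega) h1 h2
    have h5 : 2 * e * min g 1 * 1 * X0 / g ≤ 2 * e * X0 := by
      rw [div_le_iff₀ hg]
      have : min g 1 ≤ g := min_le_left _ _
      have h6 : (2 * e * X0) * min g 1 ≤ (2 * e * X0) * g :=
        mul_le_mul_of_nonneg_left this (by positivity)
      linarith
    exact ⟨h3.trans h5, h4.trans h5⟩
  have hcell : ∀ b s, ((nb G s ∩ cl lab (P b)).card : ℝ) ≤ 2 * p * d := by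
    intro b s
    have h1 := (abs_le.mp (hlab.deg s (P b))).2
    rw [hpat.dn b] at h1
    have h2 : p * ((nb G s).card : ℝ) ≤ p * d := by
      apply mul_le_mul_of_nonneg_left _ hp0.le
      exact_mod_cast hG.deg s
    have h3 : 0 ≤ p * d := by positivity
    linarith
  have hε0'2 : ε0' ≤ 1 / 2 := (min_le_right _ _).trans (by norm_num)
  have hmin1 : min g 1 ≤ 1 := min_le_right _ _
  have g4 : ∀ b, (((Y1 \ Y2) ∩ cl lab (P b)).card : ℝ) ≤ 12 * e * X.card := by
    intro b
    have h1 := g1 (P b)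
    rw [hpat.dn b] at h1
    have h2 := diff_cls (p := p) (by omega : 0 < d) hε0'2 hG.low h1 g3.2
      (fun s => le_trans (by exact_mod_cast card_le_card (inter_subset_inter_left
        inter_subset_right)) (hcell b s)) hp0.le
    refine h2.trans ?_
    have h3 : (2 * e * (p * X0)) * min g 1 ≤ (2 * e * (p * X0)) * 1 :=
      mul_le_mul_of_nonneg_left hmin1 (by positivity)
    rw [← hpX0]
    linarith
  have g5 : ∀ b, (((Y2 \ Y1) ∩ cl lab (P b)).card : ℝ) ≤ 12 * e * X.card := by
    intro b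
    have h1 := g2 (P b)
    rw [hpat.dn b] at h1
    have h2 := diff_cls (p := p) (by omega : 0 < d) hε0'2 hG.low h1 g3.1
      (fun s => le_trans (by exact_mod_cast card_le_card (inter_subset_inter_left
        inter_subset_right)) (hcell b s)) hp0.le
    refine h2.trans ?_
    have h3 : (2 * e * (p * X0)) * min g 1 ≤ (2 * e * (p * X0)) * 1 :=
      mul_le_mul_of_nonneg_left hmin1 (by positivity)
    rw [← hpX0]
    linarith
  have hεX : ε * X.card ≤ e * X.card := mul_le_mul_of_nonneg_right hεe hXpos.le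
  have g6 : ∀ b, ((A ∩ cl lab (P b)).card : ℝ) ≤ 14 * e * X.card := by
    intro b
    have h1 := side_le (Y1 := Y1) (Y2 := Y2) (D := cl lab (P b)) hAB
    have h2 := (hnear b).1
    have h3 := (hnear b).2
    unfold Near at h2 h3
    have h4 := g4 b
    have h5 : (0 : ℝ) ≤ (((Y1 ∩ cl lab (P b)) \ (A ∩ cl lab (P b))).card : ℝ) := by positivity
    have h6 : (0 : ℝ) ≤ (((B' ∩ cl lab (P b)) \ (Y2 ∩ cl lab (P b))).card : ℝ) := by positivity
    linarith
  have g7 : ∀ b, ((B' ∩ cl lab (P b)).card : ℝ) ≤ 14 * e * X.card := by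
    intro b
    have h1 := side_le (Y1 := Y2) (Y2 := Y1) (D := cl lab (P b)) hAB.symm
    have h2 := (hnear b).1
    have h3 := (hnear b).2
    unfold Near at h2 h3
    have h4 := g5 b
    have h5 : (0 : ℝ) ≤ (((Y2 ∩ cl lab (P b)) \ (B' ∩ cl lab (P b))).card : ℝ) := by positivity
    have h6 : (0 : ℝ) ≤ (((A ∩ cl lab (P b)) \ (Y1 ∩ cl lab (P b))).card : ℝ) := by positivity
    linarith
  have hsum : ∀ D : Finset V, D ⊆ X → (∀ b, ((D ∩ cl lab (P b)).card : ℝ) ≤ 14 * e * X.card) →
      (D.card : ℝ) ≤ 14 / 1000 * X.card := by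
    intro D hD h
    rw [← card_cls hdis (fun v hv => hcl v (hD hv))]
    calc ∑ b, ((D ∩ cl lab (P b)).card : ℝ) ≤ ∑ _b : β, 14 * e * (X.card : ℝ) :=
          Finset.sum_le_sum (fun b _ => h b)
      _ = (Fintype.card β : ℝ) * (14 * e * X.card) := by
          rw [Finset.sum_const, nsmul_eq_mul, Finset.card_univ]
      _ ≤ (B : ℝ) * (14 * e * X.card) := by
          apply mul_le_mul_of_nonneg_right _ (by positivity)
          exact_mod_cast hβ
      _ ≤ 14 / 1000 * X.card := by
          have : (B : ℝ) * e ≤ 1 / 1000 := by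
            rw [hedef, mul_one_div, div_le_div_iff₀ hB0 (by norm_num)]
            linarith
          have h5 : ((B : ℝ) * e) * (14 * X.card) ≤ 1 / 1000 * (14 * X.card) :=
            mul_le_mul_of_nonneg_right this (by positivity)
          linarith
  have h1 := hsum A subset_union_left g6
  have h2 := hsum B' subset_union_right g7
  linarith

end Pool.Agent.Work.MP_db9399_lc.helper21
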